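import Pool.Agent.Helper72.LSr.C0

/-!
LR-Cb: K_sub_sdiff_le, K_sub_sdiff_union, K_sdiff_union_of_no_cross.
-/

namespace Pool.Agent.Helper7.LSr

open Finset
open scoped Classical
open Pool.Agent.Helper72.LSr

variable {V : Type} (G : SimpleGraph V)

/-- cliques meeting `Q`: union bound -/
theorem K_sub_sdiff_le (N Q : Finset V) (hQ : Q ⊆ N) (r : ℕ) :
    K G N (r + 1) - K G (N \ Q) (r + 1) ≤ ∑ x ∈ Q, K G (nb G N x) r := by
  induction Q using Finset.induction_on with
  | empty => simp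
  | insert a Q ha ih =>
    have hQ' : Q ⊆ N := (subset_insert a Q).trans hQ
    have haN : a ∈ N := hQ (mem_insert_self a Q)
    have h1 := ih hQ'
    have hmem : a ∈ N \ Q := mem_sdiff.2 ⟨haN, ha⟩
    have h2 := K_erase G hmem r
    have h3 : N \ insert a Q = (N \ Q).erase a := by
      ext x
      simp only [mem_sdiff, mem_insert, mem_erase, not_or]
      tauto
    have h4 : K G (nb G (N \ Q) a) r ≤ K G (nb G N a) r :=
      K_mono G (nb_mono G sdiff_subset a) r
    rw [sum_insert ha, h3]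
    linarith

/-- the cliques of `N` as a sum of indicators -/
theorem K_eq_sum (N : Finset V) (r : ℕ) :
    K G N r = ∑ _t ∈ (N.powersetCard r).filter (fun t : Finset V => G.IsClique (t : Set V)),
      (1 : ℤ) := by
  unfold K; simp

theorem K_sdiff_eq_sum (N Q : Finset V) (r : ℕ) :
    K G (N \ Q) r = ∑ t ∈ (N.powersetCard r).filter (fun t : Finset V => G.IsClique (t : Set V)),
      (if Disjoint t Q then (1 : ℤ) else 0) := by
  rw [K_eq_sum, ← sum_filter]
  refine sum_congr ?_ fun _ _ => rfl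
  ext t
  simp only [mem_filter, mem_powersetCard, subset_sdiff]
  tauto

/-- an upper bound for cliques meeting a union -/
theorem K_sub_sdiff_union (N Q R : Finset V) (r : ℕ) :
    K G N r - K G (N \ (Q ∪ R)) r ≤ (K G N r - K G (N \ Q) r) + (K G N r - K G (N \ R) r) := by
  rw [K_sdiff_eq_sum, K_sdiff_eq_sum, K_sdiff_eq_sum, K_eq_sum]
  rw [← sum_sub_distrib, ← sum_sub_distrib, ← sum_sub_distrib, ← sum_add_distrib]
  refine sum_le_sum fun t _ => ?_
  simp only [disjoint_union_right]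
  by_cases h1 : Disjoint t Q <;> by_cases h2 : Disjoint t R <;> simp [h1, h2]

/-- if there are no edges between `Q \ R` and `R \ Q` -/
theorem K_sdiff_union_of_no_cross (N Q R : Finset V)
    (h : ∀ x ∈ Q \ R, ∀ y ∈ R \ Q, ¬ G.Adj x y) (r : ℕ) :
    (K G N r - K G (N \ Q) r) + (K G N r - K G (N \ R) r)
      = (K G N r - K G (N \ (Q ∪ R)) r) + (K G N r - K G (N \ (Q ∩ R)) r) := by
  rw [K_sdiff_eq_sum, K_sdiff_eq_sum, K_sdiff_eq_sum, K_sdiff_eq_sum, K_eq_sum]
  rw [← sum_sub_distrib, ← sum_sub_distrib, ← sum_sub_distrib, ← sum_sub_distrib,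
    ← sum_add_distrib, ← sum_add_distrib]
  refine sum_congr rfl fun t ht => ?_
  have hc : G.IsClique (t : Set V) := (mem_filter.1 ht).2
  simp only [disjoint_union_right]
  by_cases h1 : Disjoint t Q
  · have h3 : Disjoint t (Q ∩ R) := h1.mono_right inter_subset_left
    by_cases h2 : Disjoint t R <;> simp [h1, h2, h3]
  · by_cases h2 : Disjoint t R
    · have h3 : Disjoint t (Q ∩ R) := h2.mono_right inter_subset_right
      simp [h1, h2, h3]
    · have h3 : ¬ Disjoint t (Q ∩ R) := by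
        intro h3
        rw [disjoint_left] at h1 h2 h3
        push_neg at h1 h2
        obtain ⟨x, hxt, hxQ⟩ := h1
        obtain ⟨y, hyt, hyR⟩ := h2
        have hxR : x ∉ R := fun hx => h3 hxt (mem_inter.2 ⟨hxQ, hx⟩)
        have hyQ : y ∉ Q := fun hy => h3 hyt (mem_inter.2 ⟨hy, hyR⟩)
        refine h x (mem_sdiff.2 ⟨hxQ, hxR⟩) y (mem_sdiff.2 ⟨hyR, hyQ⟩) (hc hxt hyt ?_)
        rintro rfl
        exact hxR hyR
      simp [h1, h2, h3]

end Pool.Agent.Helper7.LSr
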