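import Mathlib

/-!
LSr section 1: line relations and the numerical lemmas NEG, NUM0.
-/

namespace Pool.Agent.Helper7.LSr

open Polynomial

/-- Generating polynomial of the multiset `A` parts of size `k`, `B` parts of size `k+1`. -/
noncomputable def gp (k : ℤ) (A B : ℕ) : ℤ[X] := (1 + C k * X) ^ A * (1 + C (k + 1) * X) ^ B

/-- `e_j` of the multiset, integer index, zero for negative index. -/
noncomputable def ez (k : ℤ) (A B : ℕ) (j : ℤ) : ℤ :=
  if 0 ≤ j then (gp k A B).coeff j.toNat else 0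

theorem ez_neg {k : ℤ} {A B : ℕ} {j : ℤ} (hj : j < 0) : ez k A B j = 0 := by
  unfold ez; rw [if_neg (by omega)]

theorem ez_nat (k : ℤ) (A B j : ℕ) : ez k A B (j : ℤ) = (gp k A B).coeff j := by
  unfold ez; rw [if_pos (by omega), Int.toNat_natCast]

private theorem coeff_one_add (c : ℤ) (p : ℤ[X]) (j : ℕ) :
    (p * (1 + C c * X)).coeff (j + 1) = p.coeff (j + 1) + c * p.coeff j := by
  have : p * (1 + C c * X) = p + C c * (p * X) := by ring
  rw [this, coeff_add, coeff_C_mul, coeff_mul_X]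

private theorem coeff_one_add_zero (c : ℤ) (p : ℤ[X]) :
    (p * (1 + C c * X)).coeff 0 = p.coeff 0 := by
  simp [mul_coeff_zero]

theorem ez_A (k : ℤ) (A B : ℕ) (j : ℤ) :
    ez k (A + 1) B j = ez k A B j + k * ez k A B (j - 1) := by
  have hg : gp k (A + 1) B = gp k A B * (1 + C k * X) := by unfold gp; ring
  rcases lt_trichotomy j 0 with h | h | h
  · rw [ez_neg h, ez_neg h, ez_neg (by omega)]; ring
  · subst h
    rw [ez_neg (show (0 : ℤ) - 1 < 0 by omega)]
    have h0 : (0 : ℤ) = ((0 : ℕ) : ℤ) := rfl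
    rw [h0, ez_nat, ez_nat, hg, coeff_one_add_zero]; simp
  · obtain ⟨i, rfl⟩ : ∃ i : ℕ, j = (i : ℤ) + 1 := ⟨(j - 1).toNat, by omega⟩
    have h1 : ((i : ℤ) + 1) = ((i + 1 : ℕ) : ℤ) := by push_cast; ring
    rw [add_sub_cancel_right, ez_nat, h1, ez_nat, ez_nat, hg, coeff_one_add]

theorem ez_B (k : ℤ) (A B : ℕ) (j : ℤ) :
    ez k A (B + 1) j = ez k A B j + (k + 1) * ez k A B (j - 1) := by
  have hg : gp k A (B + 1) = gp k A B * (1 + C (k + 1) * X) := by unfold gp; ring
  rcases lt_trichotomy j 0 with h | h | h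
  · rw [ez_neg h, ez_neg h, ez_neg (by omega)]; ring
  · subst h
    rw [ez_neg (show (0 : ℤ) - 1 < 0 by omega)]
    have h0 : (0 : ℤ) = ((0 : ℕ) : ℤ) := rfl
    rw [h0, ez_nat, ez_nat, hg, coeff_one_add_zero]; simp
  · obtain ⟨i, rfl⟩ : ∃ i : ℕ, j = (i : ℤ) + 1 := ⟨(j - 1).toNat, by omega⟩
    have h1 : ((i : ℤ) + 1) = ((i + 1 : ℕ) : ℤ) := by push_cast; ring
    rw [add_sub_cancel_right, ez_nat, h1, ez_nat, ez_nat, hg, coeff_one_add]

theorem ez_sw (k : ℤ) (B : ℕ) (j : ℤ) : ez k 0 B j = ez (k + 1) B 0 j := by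
  unfold ez gp; simp

theorem ez_zero_parts (k : ℤ) (j : ℤ) : ez k 0 0 j = if j = 0 then 1 else 0 := by
  unfold ez gp
  simp only [pow_zero, mul_one, coeff_one]
  by_cases h : j = 0
  · subst h; simp
  · rw [if_neg h]
    split_ifs with h1 h2
    · omega
    · rfl
    · rfl

theorem ez_nonneg {k : ℤ} (hk : 0 ≤ k) (A B : ℕ) (j : ℤ) : 0 ≤ ez k A B j := by
  induction A generalizing j with
  | zero =>
    induction B generalizing j with
    | zero => rw [ez_zero_parts]; split_ifs <;> omega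
    | succ B ih =>
      rw [ez_B]
      have h1 := ih j
      have h2 := ih (j - 1)
      have : 0 ≤ (k + 1) * ez k 0 B (j - 1) := mul_nonneg (by omega) h2
      linarith
  | succ A ih =>
    rw [ez_A]
    have h1 := ih j
    have h2 := ih (j - 1)
    have : 0 ≤ k * ez k A B (j - 1) := mul_nonneg hk h2
    linarith

theorem ez_zero (k : ℤ) (A B : ℕ) : ez k A B 0 = 1 := by
  induction A with
  | zero =>
    induction B with
    | zero => rw [ez_zero_parts]; simp
    | succ B ih => rw [ez_B, ih, ez_neg (by omega)]; ring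
  | succ A ih => rw [ez_A, ih, ez_neg (by omega)]; ring

theorem ez_one (k : ℤ) (A B : ℕ) : ez k A B 1 = A * k + B * (k + 1) := by
  induction A with
  | zero =>
    induction B with
    | zero => rw [ez_zero_parts]; simp
    | succ B ih => rw [ez_B, ih, show (1 : ℤ) - 1 = 0 by ring, ez_zero]; push_cast; ring
  | succ A ih => rw [ez_A, ih, show (1 : ℤ) - 1 = 0 by ring, ez_zero]; push_cast; ring

/-! ### line quantities -/

noncomputable def nu (k : ℤ) (A B : ℕ) (n : ℤ) : ℤ := n - ez k A B 1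
noncomputable def theta (k : ℤ) (A B : ℕ) (n m : ℤ) : ℤ :=
  m - ez k A B 2 - nu k A B n * ez k A B 1
noncomputable def MM (k : ℤ) (A B : ℕ) (n : ℤ) : ℤ := 2 * k + 1 - nu k A B n
noncomputable def rho (k : ℤ) (A B : ℕ) (n m : ℤ) : ℤ :=
  theta k A B n m - (k + 1) * (nu k A B n - k - 1)
noncomputable def gg (k : ℤ) (A B : ℕ) (n m : ℤ) : ℤ :=
  k * (nu k A B n - k) - theta k A B n m
/-- the line value `V^r_T(n,m)` -/
noncomputable def VV (k : ℤ) (A B : ℕ) (r n m : ℤ) : ℤ :=
  ez k A B r + nu k A B n * ez k A B (r - 1) + theta k A B n m * ez k A B (r - 2)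

structure Valid (k : ℤ) (A B : ℕ) (n m : ℤ) : Prop where
  hk : 1 ≤ k
  hrho : 0 ≤ rho k A B n m
  hg : 0 ≤ gg k A B n m

variable (k : ℤ) (A B : ℕ) (n m r : ℤ)

theorem rho_add_gg : rho k A B n m + gg k A B n m = MM k A B n := by
  unfold rho gg MM; ring

theorem VV_two : VV k A B 2 n m = m := by
  unfold VV theta
  rw [show (2 : ℤ) - 1 = 1 by ring, show (2 : ℤ) - 2 = 0 by ring, ez_zero]; ring

theorem VV_one : VV k A B 1 n m = n := by
  unfold VV nu
  rw [show (1 : ℤ) - 1 = 0 by ring, ez_zero, ez_neg (show (1 : ℤ) - 2 < 0 by omega)]; ring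

/-! ### (Low) -/

theorem E_low : ez k A (B + 1) 1 = ez k (A + 1) B 1 + 1 := by
  rw [ez_one, ez_one]; push_cast; ring

theorem e2_low : ez k A (B + 1) 2 = ez k (A + 1) B 2 + ez k A B 1 := by
  rw [ez_A, ez_B, show (2 : ℤ) - 1 = 1 by ring]; ring

theorem e1_A : ez k (A + 1) B 1 = ez k A B 1 + k := by
  rw [ez_A, show (1 : ℤ) - 1 = 0 by ring, ez_zero]; ring

theorem e1_B : ez k A (B + 1) 1 = ez k A B 1 + (k + 1) := by
  rw [ez_B, show (1 : ℤ) - 1 = 0 by ring, ez_zero]; ring

theorem nu_low : nu k A (B + 1) n = nu k (A + 1) B n - 1 := by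
  unfold nu; rw [E_low]; ring

theorem MM_low : MM k A (B + 1) n = MM k (A + 1) B n + 1 := by
  unfold MM; rw [nu_low]; ring

theorem theta_low : theta k A (B + 1) n m = theta k (A + 1) B n m - nu k (A + 1) B n + k + 1 := by
  unfold theta
  rw [nu_low, e2_low, E_low, e1_A]
  unfold nu
  rw [e1_A]; ring

theorem rho_low : rho k A (B + 1) n m = rho k (A + 1) B n m + MM k (A + 1) B n + 1 := by
  unfold rho MM; rw [theta_low, nu_low]; ring

theorem gg_low : gg k A (B + 1) n m = - rho k (A + 1) B n m := by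
  unfold gg rho; rw [theta_low, nu_low]; ring

theorem VV_low : VV k A (B + 1) r n m =
    VV k (A + 1) B r n m + ez k A B (r - 3) * rho k (A + 1) B n m := by
  unfold VV rho
  rw [theta_low, nu_low, ez_A k A B r, ez_A k A B (r - 1), ez_A k A B (r - 2),
    ez_B k A B r, ez_B k A B (r - 1), ez_B k A B (r - 2),
    show r - 1 - 1 = r - 2 by ring, show r - 2 - 1 = r - 3 by ring]
  ring

/-! ### (Sw) -/

theorem nu_sw : nu (k + 1) B 0 n = nu k 0 B n := by
  unfold nu; rw [ez_sw]

theorem theta_sw : theta (k + 1) B 0 n m = theta k 0 B n m := by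
  unfold theta; rw [nu_sw, ez_sw, ez_sw]

theorem MM_sw : MM (k + 1) B 0 n = MM k 0 B n + 2 := by
  unfold MM; rw [nu_sw]; ring

theorem rho_sw : rho (k + 1) B 0 n m = rho k 0 B n m + MM k 0 B n + 2 := by
  unfold rho MM; rw [nu_sw, theta_sw]; ring

theorem gg_sw : gg (k + 1) B 0 n m = - rho k 0 B n m := by
  unfold gg rho; rw [nu_sw, theta_sw]; ring

theorem VV_sw : VV (k + 1) B 0 r n m = VV k 0 B r n m := by
  unfold VV; rw [nu_sw, theta_sw, ez_sw, ez_sw, ez_sw]

/-! ### (Drop) -/

theorem nu_drop : nu k A B n = nu k (A + 1) B n + k := by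
  unfold nu; rw [e1_A]; ring

theorem theta_drop : theta k A B n m = theta k (A + 1) B n m + k * nu k (A + 1) B n := by
  unfold theta nu
  rw [e1_A, ez_A k A B 2, show (2 : ℤ) - 1 = 1 by ring]; ring

theorem MM_drop : MM k A B n = MM k (A + 1) B n - k := by
  unfold MM; rw [nu_drop]; ring

theorem gg_drop : gg k A B n m = - theta k (A + 1) B n m := by
  unfold gg; rw [nu_drop, theta_drop]; ring

theorem VV_drop : VV k (A + 1) B r n m =
    VV k A B r n m + k * theta k (A + 1) B n m * ez k A B (r - 3) := by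
  unfold VV
  rw [theta_drop k A B n m, nu_drop k A B n, ez_A k A B r, ez_A k A B (r - 1),
    ez_A k A B (r - 2), show r - 1 - 1 = r - 2 by ring, show r - 2 - 1 = r - 3 by ring]
  ring

/-! ### NEG -/

section NEG

variable {k : ℤ} {A B : ℕ} {n m : ℤ}

/-- The empty line can be made valid. -/
theorem neg_empty (n m : ℤ) : ∀ (t : ℕ) (k : ℤ), 1 ≤ k → 0 ≤ MM k 0 0 n → 0 ≤ gg k 0 0 n m →
    - rho k 0 0 n m ≤ t → ∃ k' : ℤ, Valid k' 0 0 n m := by
  intro t
  induction t with
  | zero =>
    intro k hk hM hg hr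
    exact ⟨k, hk, by simpa using hr, hg⟩
  | succ t ih =>
    intro k hk hM hg hr
    rcases le_or_gt 0 (rho k 0 0 n m) with h | h
    · exact ⟨k, hk, h, hg⟩
    · refine ih (k + 1) (by omega) ?_ ?_ ?_
      · rw [MM_sw]; omega
      · rw [gg_sw]; omega
      · rw [rho_sw]; push_cast at hr; omega

theorem VV_empty (k k' : ℤ) (n m r : ℤ) : VV k 0 0 r n m = VV k' 0 0 r n m := by
  unfold VV theta nu
  simp only [ez_zero_parts]

/-- `U` is the multiset minus a minimal part; one lowering step. Main induction. -/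
theorem neg_steps (p W : ℤ) (hp : 1 ≤ p) (hW : 0 ≤ W) (n m : ℤ) :
    ∀ (l : ℕ) (k : ℤ) (A B : ℕ) (c : ℤ), p ≤ k → (l : ℤ) ≤ c → c ≤ p →
      0 ≤ MM k (A + 1) B n → 0 ≤ gg k (A + 1) B n m →
      - rho k (A + 1) B n m ≤ l * (MM k (A + 1) B n + 1) → - rho k (A + 1) B n m ≤ W →
      ∃ (k' : ℤ) (A' B' : ℕ), A' + B' = A + 1 + B ∧ Valid k' A' B' n m ∧
        ∀ (r F : ℤ), ez k A B (r - 3) + c * ez k A B (r - 4) ≤ F →
          VV k (A + 1) B r n m - l * (W * F) ≤ VV k' A' B' r n m := by
  intro l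
  induction l with
  | zero =>
    intro k A B c hpk hlc hcp hM hg hr hrW
    refine ⟨k, A + 1, B, rfl, ⟨by omega, by simpa using hr, hg⟩, ?_⟩
    intro r F _
    simp
  | succ l ih =>
    intro k A B c hpk hlc hcp hM hg hr hrW
    have hk1 : 1 ≤ k := by omega
    rcases le_or_gt 0 (rho k (A + 1) B n m) with h | h
    · refine ⟨k, A + 1, B, rfl, ⟨hk1, h, hg⟩, ?_⟩
      intro r F hF
      have e1 := ez_nonneg (show (0 : ℤ) ≤ k by omega) A B (r - 3)
      have e2 := ez_nonneg (show (0 : ℤ) ≤ k by omega) A B (r - 4)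
      have hc : 0 ≤ c := by push_cast at hlc; omega
      have hF0 : 0 ≤ F := le_trans (add_nonneg e1 (mul_nonneg hc e2)) hF
      have : 0 ≤ ((l + 1 : ℕ) : ℤ) * (W * F) := mul_nonneg (by positivity) (mul_nonneg hW hF0)
      linarith
    · -- lower
      have hM1 : 0 ≤ MM k A (B + 1) n := by rw [MM_low]; omega
      have hg1 : 0 ≤ gg k A (B + 1) n m := by rw [gg_low]; omega
      have hr1 : - rho k A (B + 1) n m ≤ l * (MM k A (B + 1) n + 1) := by
        rw [rho_low, MM_low]
        push_cast at hr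
        have : 0 ≤ (l : ℤ) := by positivity
        nlinarith
      have hrW1 : - rho k A (B + 1) n m ≤ W := by rw [rho_low]; omega
      have hlow := VV_low k A B n m
      have hc1 : (l : ℤ) ≤ c - 1 := by push_cast at hlc; omega
      rcases Nat.eq_zero_or_pos A with hA | hA
      · -- no `k`-part left: switch
        subst hA
        have hM2 : 0 ≤ MM (k + 1) (B + 1) 0 n := by rw [MM_sw]; omega
        have hr0 := hr1
        rcases le_or_gt 0 (rho k 0 (B + 1) n m) with h0 | h0
        · refine ⟨k, 0, B + 1, by omega, ⟨hk1, h0, hg1⟩, ?_⟩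
          intro r F hF
          have e1 := ez_nonneg (show (0 : ℤ) ≤ k by omega) 0 B (r - 3)
          have e2 := ez_nonneg (show (0 : ℤ) ≤ k by omega) 0 B (r - 4)
          have hc : 0 ≤ c := by push_cast at hlc; omega
          have hF0 : 0 ≤ F := le_trans (add_nonneg e1 (mul_nonneg hc e2)) hF
          have e3 : ez k 0 B (r - 3) ≤ F := by
            have := mul_nonneg hc e2; linarith
          have e4 : ez k 0 B (r - 3) * (- rho k (0 + 1) B n m) ≤ F * W :=
            mul_le_mul e3 hrW (by omega) hF0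
          have e5 := hlow r
          have e6 : 0 ≤ (l : ℤ) * (W * F) := mul_nonneg (by positivity) (mul_nonneg hW hF0)
          push_cast
          linarith [mul_comm F W]
        · have hg2 : 0 ≤ gg (k + 1) (B + 1) 0 n m := by rw [gg_sw]; omega
          have hr2 : - rho (k + 1) (B + 1) 0 n m ≤ l * (MM (k + 1) (B + 1) 0 n + 1) := by
            rw [rho_sw, MM_sw]
            have : 0 ≤ (l : ℤ) := by positivity
            nlinarith
          have hrW2 : - rho (k + 1) (B + 1) 0 n m ≤ W := by rw [rho_sw]; omega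
          obtain ⟨k', A', B', hs, hv, hV⟩ := ih (k + 1) B 0 (c - 1) (by omega) hc1 (by omega)
            hM2 hg2 hr2 hrW2
          refine ⟨k', A', B', by omega, hv, ?_⟩
          intro r F hF
          have e1 := ez_nonneg (show (0 : ℤ) ≤ k by omega) 0 B (r - 3)
          have e2 := ez_nonneg (show (0 : ℤ) ≤ k by omega) 0 B (r - 4)
          have hc : 0 ≤ c := by push_cast at hlc; omega
          have hF0 : 0 ≤ F := le_trans (add_nonneg e1 (mul_nonneg hc e2)) hF
          have e3 : ez k 0 B (r - 3) ≤ F := by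
            have := mul_nonneg hc e2; linarith
          have e4 : ez k 0 B (r - 3) * (- rho k (0 + 1) B n m) ≤ F * W :=
            mul_le_mul e3 hrW (by omega) hF0
          have e5 := hlow r
          have e7 := hV r F (by
            rw [← ez_sw, ← ez_sw]
            linarith)
          rw [VV_sw] at e7
          push_cast
          linarith [mul_comm F W]
      · obtain ⟨A, rfl⟩ : ∃ a, A = a + 1 := ⟨A - 1, by omega⟩
        obtain ⟨k', A', B', hs, hv, hV⟩ := ih k A (B + 1) (c - 1) hpk hc1 (by omega)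
          hM1 hg1 hr1 hrW1
        refine ⟨k', A', B', by omega, hv, ?_⟩
        intro r F hF
        have e1 := ez_nonneg (show (0 : ℤ) ≤ k by omega) (A + 1) B (r - 3)
        have e2 := ez_nonneg (show (0 : ℤ) ≤ k by omega) (A + 1) B (r - 4)
        have hc : 0 ≤ c := by push_cast at hlc; omega
        have hF0 : 0 ≤ F := le_trans (add_nonneg e1 (mul_nonneg hc e2)) hF
        have e3 : ez k (A + 1) B (r - 3) ≤ F := by
          have := mul_nonneg hc e2; linarith
        have e4 : ez k (A + 1) B (r - 3) * (- rho k (A + 1 + 1) B n m) ≤ F * W :=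
          mul_le_mul e3 hrW (by omega) hF0
        have e5 := hlow r
        have e7 := hV r F (by
          refine le_trans ?_ hF
          rw [ez_A k A B (r - 3), ez_A k A B (r - 4), ez_B k A B (r - 3), ez_B k A B (r - 4),
            show r - 3 - 1 = r - 4 by ring]
          have e8 := ez_nonneg (show (0 : ℤ) ≤ k by omega) A B (r - 4 - 1)
          have e9 : (c - 1 - k) * ez k A B (r - 4 - 1) ≤ 0 :=
            mul_nonpos_of_nonpos_of_nonneg (by omega) e8
          nlinarith)
        push_cast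
        linarith [mul_comm F W]

/-- NEG for the multiset `(A+1, B)_k`. -/
theorem neg_A (hk : 1 ≤ k) (hv : Valid k (A + 1) B n m) (hnu : nu k (A + 1) B n ≤ k) :
    ∃ (k' : ℤ) (A' B' : ℕ), A' + B' = A + B ∧ Valid k' A' B' n m ∧
      ∀ r : ℤ, VV k (A + 1) B r n m ≤ VV k' A' B' r n m := by
  have hθ : theta k (A + 1) B n m ≤ 0 := by
    have := hv.hg
    unfold gg at this
    have h1 : k * (nu k (A + 1) B n - k) ≤ 0 := mul_nonpos_of_nonneg_of_nonpos (by omega) (by omega)
    linarith
  have hg' : 0 ≤ gg k A B n m := by rw [gg_drop]; omega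
  have hM' : 1 ≤ MM k A B n := by rw [MM_drop]; unfold MM; omega
  have hWb : - theta k (A + 1) B n m ≤ (k + 1) * MM k A B n := by
    have := hv.hrho
    unfold rho at this
    rw [MM_drop]; unfold MM
    nlinarith
  have hsum := rho_add_gg k A B n m
  have hgW : gg k A B n m = - theta k (A + 1) B n m := gg_drop k A B n m
  rcases Nat.eq_zero_or_pos A with hA | hA
  · rcases Nat.eq_zero_or_pos B with hB | hB
    · subst hA hB
      obtain ⟨k', hk'⟩ := neg_empty n m (- rho k 0 0 n m).toNat k hk (by omega) hg'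
        (Int.self_le_toNat _)
      refine ⟨k', 0, 0, rfl, hk', fun r => ?_⟩
      rw [VV_drop, VV_empty k k']
      have := ez_nonneg (show (0 : ℤ) ≤ k by omega) 0 0 (r - 3)
      have h2 : k * theta k (0 + 1) 0 n m ≤ 0 := mul_nonpos_of_nonneg_of_nonpos (by omega) hθ
      have h3 := mul_nonpos_of_nonpos_of_nonneg h2 this
      linarith
    · subst hA
      obtain ⟨B, rfl⟩ : ∃ b, B = b + 1 := ⟨B - 1, by omega⟩
      rcases le_or_gt 0 (rho k 0 (B + 1) n m) with h0 | h0
      · refine ⟨k, 0, B + 1, by omega, ⟨hk, h0, hg'⟩, fun r => ?_⟩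
        rw [VV_drop]
        have := ez_nonneg (show (0 : ℤ) ≤ k by omega) 0 (B + 1) (r - 3)
        have h2 : k * theta k (0 + 1) (B + 1) n m ≤ 0 :=
          mul_nonpos_of_nonneg_of_nonpos (by omega) hθ
        have h3 := mul_nonpos_of_nonpos_of_nonneg h2 this
        linarith
      · -- switch, then steps with `p = k`
        obtain ⟨k', A', B', hs, hv', hV⟩ := neg_steps k (- theta k (0 + 1) (B + 1) n m) hk
          (by omega) n m k.toNat (k + 1) B 0 k (by omega) (by omega) le_rfl
          (by rw [MM_sw]; omega) (by rw [gg_sw]; omega)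
          (by
            rw [rho_sw, MM_sw]
            have : (k.toNat : ℤ) = k := Int.toNat_of_nonneg (by omega)
            rw [this]
            nlinarith)
          (by rw [rho_sw]; omega)
        refine ⟨k', A', B', by omega, hv', fun r => ?_⟩
        have e := hV r (ez k 0 (B + 1) (r - 3)) (by
          rw [← ez_sw, ← ez_sw, ez_B k 0 B (r - 3), show r - 3 - 1 = r - 4 by ring]
          have := ez_nonneg (show (0 : ℤ) ≤ k by omega) 0 B (r - 4)
          nlinarith)
        rw [VV_sw] at e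
        rw [VV_drop]
        have : (k.toNat : ℤ) = k := Int.toNat_of_nonneg (by omega)
        rw [this] at e
        linarith
  · obtain ⟨A, rfl⟩ : ∃ a, A = a + 1 := ⟨A - 1, by omega⟩
    obtain ⟨k', A', B', hs, hv', hV⟩ := neg_steps k (- theta k (A + 1 + 1) B n m) hk
      (by omega) n m k.toNat k A B k le_rfl (by omega) le_rfl
      (by omega) hg'
      (by
        have : (k.toNat : ℤ) = k := Int.toNat_of_nonneg (by omega)
        rw [this]
        nlinarith)
      (by omega)
    refine ⟨k', A', B', by omega, hv', fun r => ?_⟩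
    have e := hV r (ez k (A + 1) B (r - 3)) (by
      rw [ez_A k A B (r - 3), show r - 3 - 1 = r - 4 by ring])
    rw [VV_drop]
    have : (k.toNat : ℤ) = k := Int.toNat_of_nonneg (by omega)
    rw [this] at e
    linarith

/-- NEG for the multiset `(0, B+1)_k`. -/
theorem neg_B (hk : 1 ≤ k) (hv : Valid k 0 (B + 1) n m) (hnu : nu k 0 (B + 1) n ≤ k) :
    ∃ (k' : ℤ) (A' B' : ℕ), A' + B' = B ∧ Valid k' A' B' n m ∧
      ∀ r : ℤ, VV k 0 (B + 1) r n m ≤ VV k' A' B' r n m := by
  -- read it as `(B+1, 0)_{k+1}`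
  have hnu' : nu (k + 1) (B + 1) 0 n ≤ k := by rw [nu_sw]; exact hnu
  have hθeq : theta (k + 1) (B + 1) 0 n m = theta k 0 (B + 1) n m := theta_sw k (B + 1) n m
  have hθ : theta (k + 1) (B + 1) 0 n m ≤ 0 := by
    rw [hθeq]
    have := hv.hg
    unfold gg at this
    have h1 : k * (nu k 0 (B + 1) n - k) ≤ 0 := mul_nonpos_of_nonneg_of_nonpos (by omega) (by omega)
    linarith
  have hg' : 0 ≤ gg (k + 1) B 0 n m := by rw [gg_drop]; omega
  have hM' : 1 ≤ MM (k + 1) B 0 n := by rw [MM_drop]; unfold MM; omega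
  have hWb : - theta (k + 1) (B + 1) 0 n m ≤ (k + 1) * (MM (k + 1) B 0 n - 1) := by
    rw [hθeq]
    have := hv.hrho
    unfold rho at this
    rw [MM_drop]; unfold MM
    rw [nu_sw]
    nlinarith
  have hsum := rho_add_gg (k + 1) B 0 n m
  have hgW : gg (k + 1) B 0 n m = - theta (k + 1) (B + 1) 0 n m := gg_drop (k + 1) B 0 n m
  rcases Nat.eq_zero_or_pos B with hB | hB
  · subst hB
    obtain ⟨k', hk'⟩ := neg_empty n m (- rho (k + 1) 0 0 n m).toNat (k + 1) (by omega) (by omega)
      hg' (Int.self_le_toNat _)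
    refine ⟨k', 0, 0, rfl, hk', fun r => ?_⟩
    rw [← VV_sw, VV_drop, VV_empty (k + 1) k']
    have := ez_nonneg (show (0 : ℤ) ≤ k + 1 by omega) 0 0 (r - 3)
    have h2 : (k + 1) * theta (k + 1) (0 + 1) 0 n m ≤ 0 :=
      mul_nonpos_of_nonneg_of_nonpos (by omega) hθ
    have h3 := mul_nonpos_of_nonpos_of_nonneg h2 this
    linarith
  · obtain ⟨B, rfl⟩ : ∃ b, B = b + 1 := ⟨B - 1, by omega⟩
    obtain ⟨k', A', B', hs, hv', hV⟩ := neg_steps (k + 1) (- theta (k + 1) (B + 1 + 1) 0 n m)
      (by omega) (by omega) n m (k + 1).toNat (k + 1) B 0 (k + 1) le_rfl (by omega) le_rfl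
      (by omega) hg'
      (by
        have : ((k + 1).toNat : ℤ) = k + 1 := Int.toNat_of_nonneg (by omega)
        rw [this]
        nlinarith)
      (by omega)
    refine ⟨k', A', B', by omega, hv', fun r => ?_⟩
    have e := hV r (ez (k + 1) (B + 1) 0 (r - 3)) (by
      rw [ez_A (k + 1) B 0 (r - 3), show r - 3 - 1 = r - 4 by ring])
    rw [← VV_sw, VV_drop]
    have : ((k + 1).toNat : ℤ) = k + 1 := Int.toNat_of_nonneg (by omega)
    rw [this] at e
    linarith

/-- **NEG.** -/
theorem NEG (hAB : 1 ≤ A + B) (hv : Valid k A B n m) (hnu : nu k A B n ≤ k) :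
    ∃ (k' : ℤ) (A' B' : ℕ), A' + B' + 1 = A + B ∧ Valid k' A' B' n m ∧
      ∀ r : ℤ, VV k A B r n m ≤ VV k' A' B' r n m := by
  rcases Nat.eq_zero_or_pos A with hA | hA
  · subst hA
    obtain ⟨B, rfl⟩ : ∃ b, B = b + 1 := ⟨B - 1, by omega⟩
    obtain ⟨k', A', B', hs, h1, h2⟩ := neg_B hv.hk hv hnu
    exact ⟨k', A', B', by omega, h1, h2⟩
  · obtain ⟨A, rfl⟩ : ∃ a, A = a + 1 := ⟨A - 1, by omega⟩
    obtain ⟨k', A', B', hs, h1, h2⟩ := neg_A hv.hk hv hnu
    exact ⟨k', A', B', by omega, h1, h2⟩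

theorem VV_no_parts (k n m : ℤ) {r : ℤ} (hr : 3 ≤ r) : VV k 0 0 r n m = 0 := by
  unfold VV
  simp only [ez_zero_parts]
  rw [if_neg (by omega), if_neg (by omega), if_neg (by omega)]; ring

theorem ez_two_nonneg (hk : 0 ≤ k) (A B : ℕ) : 0 ≤ ez k A B 2 := ez_nonneg hk A B 2

/-- **NUM0.** -/
theorem NUM0 {r : ℤ} (hr : 2 ≤ r) (hm : m ≤ 0) :
    ∀ (N : ℕ) (k : ℤ) (A B : ℕ), A + B = N → Valid k A B n m → VV k A B r n m ≤ 0 := by
  intro N
  induction N with
  | zero =>
    intro k A B hN hv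
    have hA : A = 0 := by omega
    have hB : B = 0 := by omega
    subst hA hB
    rcases eq_or_lt_of_le hr with h2 | h2
    · rw [← h2, VV_two]; exact hm
    · rw [VV_no_parts k n m (by omega)]
  | succ N ih =>
    intro k A B hN hv
    rcases le_or_gt (nu k A B n) k with hnu | hnu
    · obtain ⟨k', A', B', hs, h1, h2⟩ := NEG (by omega) hv hnu
      exact (h2 r).trans (ih k' A' B' (by omega) h1)
    · -- impossible: m = e2 + nu E + theta > 0
      exfalso
      have hk := hv.hk
      have hθ : 0 ≤ theta k A B n m := by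
        have h1 := hv.hrho
        unfold rho at h1
        have : 0 ≤ (k + 1) * (nu k A B n - k - 1) := mul_nonneg (by omega) (by omega)
        linarith
      have he2 := ez_two_nonneg (k := k) (by omega) A B
      have hE : 1 ≤ ez k A B 1 := by
        rw [ez_one]
        rcases Nat.eq_zero_or_pos A with hA | hA
        · have hB : (1 : ℤ) ≤ B := by omega
          have hA' : (0 : ℤ) ≤ A := by positivity
          nlinarith [mul_nonneg hA' (show (0 : ℤ) ≤ k by omega)]
        · have hA' : (1 : ℤ) ≤ A := by omega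
          have hB : (0 : ℤ) ≤ B := by positivity
          nlinarith [mul_nonneg hB (show (0 : ℤ) ≤ k + 1 by omega)]
      have h5 : m = ez k A B 2 + nu k A B n * ez k A B 1 + theta k A B n m := by
        unfold theta; ring
      have h6 : 0 < nu k A B n * ez k A B 1 := mul_pos (by omega) (by omega)
      linarith

end NEG

end Pool.Agent.Helper7.LSr
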