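import Mathlib

/-!
LSr section 7: the numerical lemmas of the Main Lemma, in integers (multiplied out).
-/

namespace Pool.Agent.Helper7.LSr

/-- The common hypotheses. -/
structure NumHyp (k D Y eps X M rho rm mm Z : ℤ) : Prop where
  hD : D = M + X
  hDY : D = Y + eps
  hrm : rm = max (-rho) 0
  hY : 1 + rm ≤ Y
  heps : 1 ≤ eps
  hZ : Z = eps - rho - mm
  hZ1 : 1 + rm ≤ Z
  hX : X ≤ 1
  hmm : 0 ≤ mm
  hk : 1 ≤ k
  hcase : (1 ≤ rho ∧ M ≤ k) ∨ (rho ≤ 0 ∧ M ≤ k - 1)

namespace NumHyp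

variable {k D Y eps X M rho rm mm Z : ℤ}

theorem rm_nonneg (h : NumHyp k D Y eps X M rho rm mm Z) : 0 ≤ rm := by
  rw [h.hrm]; exact le_max_right _ _

theorem rm_ge (h : NumHyp k D Y eps X M rho rm mm Z) : -rho ≤ rm := by
  rw [h.hrm]; exact le_max_left _ _

/-- case split -/
theorem cases (h : NumHyp k D Y eps X M rho rm mm Z) :
    (rm = 0 ∧ 1 ≤ rho ∧ M ≤ k) ∨ (rm = -rho ∧ 0 ≤ rm ∧ M ≤ k - 1) := by
  rcases h.hcase with ⟨h1, h2⟩ | ⟨h1, h2⟩
  · left
    refine ⟨?_, h1, h2⟩
    rw [h.hrm]; exact max_eq_right (by linarith)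
  · right
    refine ⟨?_, h.rm_nonneg, h2⟩
    rw [h.hrm]; exact max_eq_left (by linarith)

theorem D_le (h : NumHyp k D Y eps X M rho rm mm Z) : D ≤ k + 1 := by
  have := h.hD; have := h.hX
  rcases h.hcase with ⟨h1, h2⟩ | ⟨h1, h2⟩ <;> linarith

theorem D_ge (h : NumHyp k D Y eps X M rho rm mm Z) : 2 ≤ D := by
  have := h.hDY; have := h.hY; have := h.heps; have := h.rm_nonneg
  linarith

/-- `tau ≤ k/(k+1)` -/
theorem tau_le (h : NumHyp k D Y eps X M rho rm mm Z) : (k + 1) * Y ≤ k * D := by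
  have h1 := h.hDY; have h2 := h.heps; have h3 := h.D_le; have h4 := h.hk
  nlinarith

/-- `tau Z - rm ≤ tau eps` -/
theorem tauZ_le (h : NumHyp k D Y eps X M rho rm mm Z) : Y * Z - rm * D ≤ Y * eps := by
  have h1 := h.hDY; have h2 := h.hZ; have h3 := h.hmm; have h4 := h.rm_ge; have h5 := h.rm_nonneg
  have h6 := h.hY; have h7 := h.heps
  nlinarith

theorem far1 (h : NumHyp k D Y eps X M rho rm mm Z) (Du : ℤ) (hu : M + 2 ≤ 2 * Du) :
    (k + 1) * (Y * Z - rm * D) ≤ (k + 1) * Y * Du + k * D * (Du - 1) := by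
  have h1 := h.tauZ_le; have h2 := h.tau_le; have h3 := h.D_ge; have h4 := h.hk
  have h5 := h.hDY; have h6 := h.hD; have h7 := h.hX; have h8 := h.hY; have h9 := h.rm_nonneg
  have hDu : D + 1 ≤ 2 * Du := by linarith
  have e1 : 2 * ((k + 1) * (Y * Z - rm * D)) ≤ 2 * ((k + 1) * (Y * (D - Y))) := by
    have : Y * eps = Y * (D - Y) := by rw [h5]; ring
    nlinarith
  have e2 : (k + 1) * Y * (D + 1) ≤ (k + 1) * Y * (2 * Du) :=
    mul_le_mul_of_nonneg_left hDu (by nlinarith)
  have e3 : k * D * (D - 1) ≤ k * D * (2 * Du - 2) :=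
    mul_le_mul_of_nonneg_left (by linarith) (by nlinarith)
  have e4 : (k + 1) * Y * (D - 1) ≤ k * D * (D - 1) := mul_le_mul_of_nonneg_right h2 (by linarith)
  have e5 : 0 ≤ (k + 1) * Y * Y := mul_nonneg (mul_nonneg (by linarith) (by linarith)) (by linarith)
  nlinarith

theorem far2 (h : NumHyp k D Y eps X M rho rm mm Z) (Du : ℤ) (hu : M + 1 ≤ Du) :
    (k + 1) * (Y * Z - rm * D) ≤ (k + 1) * Y * Du + k * D * (Du - 2) := by
  have h1 := h.tauZ_le; have h3 := h.D_ge; have h4 := h.hk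
  have h5 := h.hDY; have h6 := h.hD; have h7 := h.hX; have h8 := h.hY; have h9 := h.rm_nonneg
  have hDu : D ≤ Du := by linarith
  have e1 : (k + 1) * (Y * Z - rm * D) ≤ (k + 1) * (Y * eps) :=
    mul_le_mul_of_nonneg_left h1 (by linarith)
  have e2 : (k + 1) * Y * eps ≤ (k + 1) * Y * Du :=
    mul_le_mul_of_nonneg_left (by linarith) (mul_nonneg (by linarith) (by linarith))
  have e3 : 0 ≤ k * D * (Du - 2) :=
    mul_nonneg (mul_nonneg (by linarith) (by linarith)) (by linarith)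
  nlinarith

theorem c3 (h : NumHyp k D Y eps X M rho rm mm Z) :
    (k + 1) * (Y * Z - rm * D) ≤ k * eps * D := by
  have h2 := h.tau_le; have h3 := h.D_ge; have h4 := h.hk
  have h5 := h.hDY; have h8 := h.hY; have h9 := h.rm_nonneg; have hZ := h.hZ; have hZ1 := h.hZ1
  have hmm := h.hmm; have h10 := h.rm_ge
  have e1 : (k + 1) * Y * Z ≤ k * D * Z := mul_le_mul_of_nonneg_right h2 (by linarith)
  have e2 : k * D * Z ≤ k * D * (eps + rm) :=
    mul_le_mul_of_nonneg_left (by linarith) (mul_nonneg (by linarith) (by linarith))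
  have e3 : 0 ≤ rm * D := mul_nonneg h9 (by linarith)
  nlinarith

theorem eps_ge_two (h : NumHyp k D Y eps X M rho rm mm Z) (hmm : 1 ≤ mm) : 2 ≤ eps := by
  have hZ := h.hZ; have hZ1 := h.hZ1; have h10 := h.rm_ge; have h9 := h.rm_nonneg
  rcases h.cases with ⟨h1, h2, h3⟩ | ⟨h1, h2, h3⟩ <;> linarith

theorem Z_le (h : NumHyp k D Y eps X M rho rm mm Z) (hmm : 1 ≤ mm) : Z ≤ eps + rm - 1 := by
  have hZ := h.hZ; have h10 := h.rm_ge
  linarith

theorem xm1 (h : NumHyp k D Y eps X M rho rm mm Z) (hmm : 1 ≤ mm)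
    (hp : 0 < k * X * Y * D + (2 * k + 3) * (Y * Z) - (3 * k + 3) * (rm * D)) : -1 ≤ X := by
  by_contra hX
  have hX' : X ≤ -2 := by omega
  have h3 := h.D_ge; have h4 := h.hk; have h5 := h.hDY; have h8 := h.hY
  have h9 := h.rm_nonneg; have hZ := h.Z_le hmm; have hD := h.hD
  have hDk : D ≤ k - 2 := by
    rcases h.cases with ⟨h1, h2, h3⟩ | ⟨h1, h2, h3⟩ <;> linarith
  have e1 : k * X * Y * D ≤ -2 * (k * Y * D) := by
    have : X * (k * Y * D) ≤ -2 * (k * Y * D) :=
      mul_le_mul_of_nonneg_right hX' (mul_nonneg (mul_nonneg (by linarith) (by linarith))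
        (by linarith))
    nlinarith
  have e2 : (2 * k + 3) * (Y * Z) ≤ (2 * k + 3) * (Y * (D - 2)) :=
    mul_le_mul_of_nonneg_left (mul_le_mul_of_nonneg_left (by linarith) (by linarith))
      (by linarith)
  have e3 : 0 ≤ (3 * k + 3) * (rm * D) := mul_nonneg (by linarith) (mul_nonneg h9 (by linarith))
  have e4 : Y * (3 * D - 4 * k - 6) ≤ 0 :=
    mul_nonpos_of_nonneg_of_nonpos (by linarith) (by linarith)
  nlinarith

/-- `N = Y Z - rm D ≤ k D`. -/
theorem N_le (h : NumHyp k D Y eps X M rho rm mm Z) : Y * Z - rm * D ≤ k * D := by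
  have h1 := h.tauZ_le; have h3 := h.D_ge; have h5 := h.hDY; have h8 := h.hY
  have h9 := h.rm_nonneg; have hD := h.D_le; have h7 := h.heps; have h4 := h.hk
  have e1 : Y * eps ≤ D * k := mul_le_mul (by linarith) (by linarith) (by linarith) (by linarith)
  linarith

theorem N_le' (h : NumHyp k D Y eps X M rho rm mm Z) (h2 : 2 * eps ≤ k) :
    2 * (Y * Z - rm * D) ≤ k * D := by
  have h1 := h.tauZ_le; have h3 := h.D_ge; have h5 := h.hDY; have h8 := h.hY
  have h9 := h.rm_nonneg; have h7 := h.heps; have h4 := h.hk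
  have e1 : Y * (2 * eps) ≤ D * k := mul_le_mul (by linarith) h2 (by linarith) (by linarith)
  linarith

theorem nc4 (h : NumHyp k D Y eps X M rho rm mm Z) (hmm : 1 ≤ mm) (hX1 : -1 ≤ X)
    (hJ : k + 1 - D ≤ mm + (1 - X) * D - Y - rho) :
    k * D * (k + 1 - D) + k * X * Y * D + (2 * k + 3) * (Y * Z) - (3 * k + 3) * (rm * D) ≤
      k * D * (4 * eps + 1) := by
  have h3 := h.D_ge; have h4 := h.hk; have h5 := h.hDY; have h8 := h.hY
  have h9 := h.rm_nonneg; have hZ := h.Z_le hmm; have hD := h.hD; have hX := h.hX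
  have hZ1 := h.hZ1; have hZZ := h.hZ; have he := h.eps_ge_two hmm; have hN := h.N_le
  have hkD : 0 < k * D := mul_pos (by linarith) (by linarith)
  have hYD : k * Y * Z ≤ k * D * Z := by
    have : k * Y ≤ k * D := mul_le_mul_of_nonneg_left (by linarith) (by linarith)
    exact mul_le_mul_of_nonneg_right this (by linarith)
  have hZe : k * D * Z ≤ k * D * (eps + rm - 1) := mul_le_mul_of_nonneg_left hZ hkD.le
  obtain rfl | rfl | rfl : X = 0 ∨ X = -1 ∨ X = 1 := by omega
  · -- X = 0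
    have hJ' : k * D * (k + 1 - D) ≤ k * D * (2 * eps - 2 * rho - Z) :=
      mul_le_mul_of_nonneg_left (by linarith) hkD.le
    rcases h.cases with ⟨h1, h2, h6⟩ | ⟨h1, h2, h6⟩
    · subst h1
      have e1 : k * D * 1 ≤ k * D * rho := mul_le_mul_of_nonneg_left h2 hkD.le
      have e2 : k * D * 2 ≤ k * D * eps := mul_le_mul_of_nonneg_left he hkD.le
      nlinarith
    · have hr : rho = -rm := by linarith
      subst hr
      have e2 : k * D * 2 ≤ k * D * eps := mul_le_mul_of_nonneg_left he hkD.le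
      nlinarith
  · -- X = -1
    have hJ' : k * D * (k + 1 - D) ≤ k * D * (3 * eps + Y - 2 * rho - Z) :=
      mul_le_mul_of_nonneg_left (by linarith) hkD.le
    rcases h.cases with ⟨h1, h2, h6⟩ | ⟨h1, h2, h6⟩
    · subst h1
      have e1 : k * D * 1 ≤ k * D * rho := mul_le_mul_of_nonneg_left h2 hkD.le
      have e2 : k * D * 2 ≤ k * D * eps := mul_le_mul_of_nonneg_left he hkD.le
      have e3 : k * D * Z ≤ k * D * (eps - 2) := mul_le_mul_of_nonneg_left (by linarith) hkD.le
      nlinarith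
    · have hr : rho = -rm := by linarith
      subst hr
      rcases le_or_gt (2 * Y) D with hY2 | hY2
      · have e4 : 2 * (k * Y * Z) ≤ k * D * Z := by
          have : (k * Z) * (2 * Y) ≤ (k * Z) * D :=
            mul_le_mul_of_nonneg_left hY2 (mul_nonneg (by linarith) (by linarith))
          nlinarith
        have e2 : k * D * 2 ≤ k * D * eps := mul_le_mul_of_nonneg_left he hkD.le
        have e5 : 0 ≤ k * D * rm := mul_nonneg hkD.le h9
        nlinarith
      · have hN' := h.N_le' (by linarith)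
        have e5 : 0 ≤ k * D * rm := mul_nonneg hkD.le h9
        nlinarith
  · -- X = 1
    have hJ' : k * D * (k + 1 - D) ≤ k * D * (eps - 2 * rho - Z - Y) :=
      mul_le_mul_of_nonneg_left (by linarith) hkD.le
    rcases h.cases with ⟨h1, h2, h6⟩ | ⟨h1, h2, h6⟩
    · subst h1
      have e1 : k * D * 1 ≤ k * D * rho := mul_le_mul_of_nonneg_left h2 hkD.le
      have e2 : k * D * 2 ≤ k * D * eps := mul_le_mul_of_nonneg_left he hkD.le
      nlinarith
    · have hr : rho = -rm := by linarith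
      subst hr
      have e2 : k * D * 2 ≤ k * D * eps := mul_le_mul_of_nonneg_left he hkD.le
      have e5 : 0 ≤ k * D * rm := mul_nonneg hkD.le h9
      nlinarith

theorem F_nonpos (h : NumHyp k D Y eps X M rho rm mm Z) (hmm : 1 ≤ mm) (hX0 : X ≤ 0) :
    k * X * Y * D + 3 * (k + 1) * (Y * Z) - (4 * k + 3) * (rm * D) ≤ k * (D - 1) * D := by
  have h3 := h.D_ge; have h4 := h.hk; have h5 := h.hDY; have h8 := h.hY
  have h9 := h.rm_nonneg; have hZ := h.Z_le hmm; have hD := h.hD
  have hDk : D ≤ k := by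
    rcases h.cases with ⟨h1, h2, h3⟩ | ⟨h1, h2, h3⟩ <;> linarith
  have e1 : k * X * Y * D ≤ 0 := by
    have : 0 ≤ (-X) * (k * Y * D) := mul_nonneg (by linarith)
      (mul_nonneg (mul_nonneg (by linarith) (by linarith)) (by linarith))
    nlinarith
  have e2 : 3 * (k + 1) * (Y * Z) ≤ 3 * (k + 1) * (Y * (eps + rm - 1)) :=
    mul_le_mul_of_nonneg_left (mul_le_mul_of_nonneg_left hZ (by linarith)) (by linarith)
  have e3 : 3 * (k + 1) * Y * rm ≤ (4 * k + 3) * D * rm := by
    have : 3 * (k + 1) * Y ≤ (4 * k + 3) * D := by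
      have h10 : Y ≤ D := by linarith [h.heps]
      nlinarith
    exact mul_le_mul_of_nonneg_right this h9
  have e4 : 4 * (Y * (eps - 1)) ≤ (D - 1) * (D - 1) := by
    have : eps = D - Y := by linarith
    subst this
    nlinarith [sq_nonneg (2 * Y - (D - 1))]
  have e5 : 3 * (k + 1) * (4 * (Y * (eps - 1))) ≤ 3 * (k + 1) * ((D - 1) * (D - 1)) :=
    mul_le_mul_of_nonneg_left e4 (by linarith)
  have e6 : 3 * (k + 1) * (D - 1) ≤ 4 * (k * D) := by nlinarith
  have e7 : 3 * (k + 1) * (D - 1) * (D - 1) ≤ 4 * (k * D) * (D - 1) :=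
    mul_le_mul_of_nonneg_right e6 (by linarith)
  nlinarith

theorem F_one_V (h : NumHyp k D Y eps X M rho rm mm Z) (hX1 : X = 1) (hrm : rm = 0)
    (hrho : 1 ≤ rho) (hq : 0 ≤ mm + (1 - X) * D - Y - rho) :
    k * X * Y * D + 3 * (k + 1) * (Y * Z) - (4 * k + 3) * (rm * D) ≤ k * (D - 1) * D := by
  have h3 := h.D_ge; have h4 := h.hk; have h5 := h.hDY; have h8 := h.hY
  have hZZ := h.hZ; have hDk := h.D_le; have heps := h.heps
  subst hX1 hrm
  have heq : eps = D - Y := by linarith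
  subst heq
  have hZ : Z ≤ D - 2 - 2 * Y := by linarith
  have e2 : 3 * (k + 1) * (Y * Z) ≤ 3 * (k + 1) * (Y * (D - 2 - 2 * Y)) :=
    mul_le_mul_of_nonneg_left (mul_le_mul_of_nonneg_left hZ (by linarith)) (by linarith)
  rcases le_or_gt (D - 2 - 2 * Y) 0 with hs | hs
  · have e3 : Y * (D - 2 - 2 * Y) ≤ 0 := mul_nonpos_of_nonneg_of_nonpos (by linarith) hs
    have e4 : 0 ≤ k * D * (D - 1 - Y) :=
      mul_nonneg (mul_nonneg (by linarith) (by linarith)) (by linarith)
    nlinarith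
  · have e5 : (k + 1) * (D - 1) ≤ k * D := by nlinarith
    have e6 : 3 * Y * (D - 2 - 2 * Y) ≤ (D - 1 - Y) * (D - 1) := by
      nlinarith [sq_nonneg (12 * Y - (4 * D - 7)), mul_nonneg (sub_nonneg.mpr h3)
        (sub_nonneg.mpr h3)]
    have e7 : (k + 1) * (D - 1) * (3 * Y * (D - 2 - 2 * Y)) ≤ k * D * (3 * Y * (D - 2 - 2 * Y)) :=
      mul_le_mul_of_nonneg_right e5 (mul_nonneg (by linarith) hs.le)
    have e8 : k * D * (3 * Y * (D - 2 - 2 * Y)) ≤ k * D * ((D - 1 - Y) * (D - 1)) :=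
      mul_le_mul_of_nonneg_left e6 (mul_nonneg (by linarith) (by linarith))
    have e9 : (D - 1) * ((k + 1) * (3 * Y * (D - 2 - 2 * Y))) ≤ (D - 1) * (k * D * (D - 1 - Y)) := by
      nlinarith
    have e10 : (k + 1) * (3 * Y * (D - 2 - 2 * Y)) ≤ k * D * (D - 1 - Y) :=
      le_of_mul_le_mul_left e9 (by linarith)
    nlinarith

set_option maxHeartbeats 2000000 in
theorem F_one_U (h : NumHyp k D Y eps X M rho rm mm Z) (hX1 : X = 1) (hrm : rm = -rho)
    (hMk : M ≤ k - 1) (hq : k + 1 - D ≤ mm + (1 - X) * D - Y - rho) :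
    k * X * Y * D + 3 * (k + 1) * (Y * Z) - (4 * k + 3) * (rm * D) ≤ k * (D - 1) * D := by
  have h3 := h.D_ge; have h4 := h.hk; have h5 := h.hDY; have h8 := h.hY
  have hZZ := h.hZ; have hDM := h.hD; have heps := h.heps; have h9 := h.rm_nonneg
  have hrho : rho = -rm := by linarith
  subst hX1 hrho
  have heq : eps = D - Y := by linarith
  subst heq
  have hDk : D ≤ k := by linarith
  obtain ⟨c, hc⟩ : ∃ c, c = k - D := ⟨_, rfl⟩
  have hc0 : 0 ≤ c := by linarith
  have hkc : k = D + c := by linarith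
  have hZ : Z ≤ D - 2 * Y + 2 * rm - 1 - c := by linarith
  have e2 : 3 * (k + 1) * (Y * Z) ≤ 3 * (k + 1) * (Y * (D - 2 * Y + 2 * rm - 1 - c)) :=
    mul_le_mul_of_nonneg_left (mul_le_mul_of_nonneg_left hZ (by linarith)) (by linarith)
  have hkD : 0 < k * D := mul_pos (by linarith) (by linarith)
  -- the function is linear in rm
  have key : 0 ≤ k * D * (D - Y - 1) - 3 * (k + 1) * Y * (D - 2 * Y - 1 - c) +
      rm * ((4 * k + 3) * D - 6 * (k + 1) * Y) := by
    have g0 : 0 ≤ k * D * (D - Y - 1) - 3 * (k + 1) * Y * (D - 2 * Y - 1 - c) := by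
      have e4 : 0 ≤ k * D * (D - Y - 1) := mul_nonneg hkD.le (by linarith)
      rcases le_or_gt (D - 2 * Y - 1 - c) 0 with hs | hs
      · have e3 : 3 * (k + 1) * Y * (D - 2 * Y - 1 - c) ≤ 0 :=
          mul_nonpos_of_nonneg_of_nonpos (mul_nonneg (by linarith) (by linarith)) hs
        linarith
      · have e5 : (k + 1) * D ≤ k * (D + 1) := by nlinarith
        have hs' : 0 ≤ D - 2 * Y - 1 := by linarith
        have e6 : 3 * (D + 1) * Y * (D - 2 * Y - 1) ≤ D * D * (D - Y - 1) := by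
          have hD1 : 0 < D + 1 := by linarith
          have e61 : 0 ≤ (12 * (D + 1) * Y - (4 * D ^ 2 - 3)) ^ 2 + (8 * D ^ 4 - 9) := by
            have : (2 : ℤ) ^ 4 ≤ D ^ 4 := pow_le_pow_left₀ (by norm_num) h3 4
            nlinarith [sq_nonneg (12 * (D + 1) * Y - (4 * D ^ 2 - 3))]
          have e62 : 24 * (D + 1) * (D * D * (D - Y - 1) - 3 * (D + 1) * Y * (D - 2 * Y - 1)) =
              (12 * (D + 1) * Y - (4 * D ^ 2 - 3)) ^ 2 + (8 * D ^ 4 - 9) := by ring
          have e63 : 0 ≤ 24 * (D + 1) *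
              (D * D * (D - Y - 1) - 3 * (D + 1) * Y * (D - 2 * Y - 1)) := by
            rw [e62]; exact e61
          have e64 : 0 ≤ D * D * (D - Y - 1) - 3 * (D + 1) * Y * (D - 2 * Y - 1) :=
            nonneg_of_mul_nonneg_right e63 (by linarith)
          linarith
        have e7 : (k + 1) * D * (3 * Y * (D - 2 * Y - 1)) ≤
            k * (D + 1) * (3 * Y * (D - 2 * Y - 1)) :=
          mul_le_mul_of_nonneg_right e5 (mul_nonneg (by linarith) hs')
        have e8 : k * (3 * (D + 1) * Y * (D - 2 * Y - 1)) ≤ k * (D * D * (D - Y - 1)) :=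
          mul_le_mul_of_nonneg_left e6 (by linarith)
        have e9 : D * ((k + 1) * (3 * Y * (D - 2 * Y - 1))) ≤ D * (k * D * (D - Y - 1)) := by
          nlinarith
        have e10 : (k + 1) * (3 * Y * (D - 2 * Y - 1)) ≤ k * D * (D - Y - 1) :=
          le_of_mul_le_mul_left e9 (by linarith)
        have e11 : 0 ≤ 3 * (k + 1) * Y * c :=
          mul_nonneg (mul_nonneg (by linarith) (by linarith)) hc0
        nlinarith
    rcases le_or_gt 0 ((4 * k + 3) * D - 6 * (k + 1) * Y) with hs | hs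
    · have := mul_nonneg h9 hs
      linarith
    · have e12 : (Y - 1) * ((4 * k + 3) * D - 6 * (k + 1) * Y) ≤
          rm * ((4 * k + 3) * D - 6 * (k + 1) * Y) :=
        mul_le_mul_of_nonpos_right (by linarith) hs.le
      have e13 : 0 ≤ k * D * (D - Y - 1) - 3 * (k + 1) * Y * (D - 3 - c) +
          (Y - 1) * ((4 * k + 3) * D) := by
        have e4 : 0 ≤ k * D * (D - Y - 1) := mul_nonneg hkD.le (by linarith)
        have e14 : 0 ≤ (Y - 1) * ((4 * k + 3) * D) :=
          mul_nonneg (by linarith) (mul_nonneg (by linarith) (by linarith))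
        rcases le_or_gt (D - 3 - c) 0 with hs2 | hs2
        · have e3 : 3 * (k + 1) * Y * (D - 3 - c) ≤ 0 :=
            mul_nonpos_of_nonneg_of_nonpos (mul_nonneg (by linarith) (by linarith)) hs2
          linarith
        · rcases le_or_gt 5 D with hD5 | hD5
          · -- k (D - 5) + 9 Y - 3 ≥ 0
            have e15 : 0 ≤ D * (k * (D - 5) + 9 * Y - 3) :=
              mul_nonneg (by linarith) (by nlinarith)
            have e16 : 0 ≤ 3 * Y * (3 * c) + 3 * (k + 1) * Y * c := by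
              have := mul_nonneg (show (0:ℤ) ≤ Y by linarith) hc0
              nlinarith
            have e17 : (k + 1) * (D - 3) = k * D - 2 * D - 3 * c - 3 := by
              rw [hkc]; ring
            nlinarith
          · have hD4 : D = 4 := by omega
            have hc00 : c = 0 := by omega
            subst hD4 hc00
            have : k = 4 := by linarith
            subst this
            nlinarith
      nlinarith
  nlinarith

theorem F (h : NumHyp k D Y eps X M rho rm mm Z) (hmm : 1 ≤ mm)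
    (hq : 0 ≤ mm + (1 - X) * D - Y - rho) (hJ : k + 1 - D ≤ mm + (1 - X) * D - Y - rho) :
    k * X * Y * D + 3 * (k + 1) * (Y * Z) - (4 * k + 3) * (rm * D) ≤ k * (D - 1) * D := by
  have hX := h.hX
  rcases le_or_gt X 0 with hX0 | hX0
  · exact h.F_nonpos hmm hX0
  · have hX1 : X = 1 := by omega
    rcases h.cases with ⟨h1, h2, h3⟩ | ⟨h1, h2, h3⟩
    · exact h.F_one_V hX1 h1 h2 hq
    · exact h.F_one_U hX1 h1 h3 hJ

theorem h1 (h : NumHyp k D Y eps X M rho rm mm Z) (hmm : 1 ≤ mm) (hX1 : X = 1)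
    (hq : 0 ≤ mm + (1 - X) * D - Y - rho) (hJ : k + 1 - D ≤ mm + (1 - X) * D - Y - rho)
    (hpos : 0 ≤ Y * Z - rm * D) :
    (2 * k + 3) * (Y * Z) - (3 * k + 3) * (rm * D) ≤ k * (eps - 1) * D := by
  have hF := h.F hmm hq hJ
  have h4 := h.hk; have h5 := h.hDY
  subst hX1
  have e1 : 0 ≤ k * (Y * Z - rm * D) := mul_nonneg (by linarith) hpos
  have heq : eps = D - Y := by linarith
  subst heq
  nlinarith

theorem h2 (h : NumHyp k D Y eps X M rho rm mm Z) (hmm : 1 ≤ mm) (hX1 : X = 1)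
    (hJ : k + 1 - D ≤ mm + (1 - X) * D - Y - rho) :
    k * Y * D + (2 * k + 3) * (Y * Z) - (3 * k + 3) * (rm * D) ≤ k * D * (2 * eps) := by
  have h3 := h.D_ge; have h4 := h.hk; have h5 := h.hDY; have h8 := h.hY
  have h9 := h.rm_nonneg; have hZ := h.Z_le hmm; have hD := h.hD; have hX := h.hX
  have hZ1 := h.hZ1; have hZZ := h.hZ; have he := h.eps_ge_two hmm; have hN := h.N_le
  have hDk := h.D_le
  have hkD : 0 < k * D := mul_pos (by linarith) (by linarith)
  subst hX1
  have e2 : k * D * 2 ≤ k * D * eps := mul_le_mul_of_nonneg_left he hkD.le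
  have hZJ : Z ≤ eps - 2 * rho - Y - (k + 1 - D) := by linarith
  have hZJ' : k * D * Z ≤ k * D * (eps - 2 * rho - Y - (k + 1 - D)) :=
    mul_le_mul_of_nonneg_left hZJ hkD.le
  have hJ0 : 0 ≤ k * D * (k + 1 - D) := mul_nonneg hkD.le (by linarith)
  have hYD : k * Y * Z ≤ k * D * Z := by
    have : k * Y ≤ k * D := mul_le_mul_of_nonneg_left (by linarith) (by linarith)
    exact mul_le_mul_of_nonneg_right this (by linarith)
  rcases h.cases with ⟨h1, h2, h6⟩ | ⟨h1, h2, h6⟩
  · subst h1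
    have hY2 : 2 * Y ≤ D := by linarith
    have e1 : k * D * 1 ≤ k * D * rho := mul_le_mul_of_nonneg_left h2 hkD.le
    have e4 : 2 * (k * Y * Z) ≤ k * D * Z := by
      have : (k * Z) * (2 * Y) ≤ (k * Z) * D :=
        mul_le_mul_of_nonneg_left hY2 (mul_nonneg (by linarith) (by linarith))
      nlinarith
    have e5 : 2 * (Y * Z) ≤ D * k := by
      have : (2 * Y) * Z ≤ D * k := mul_le_mul hY2 (by linarith) (by linarith) (by linarith)
      linarith
    nlinarith
  · have hr : rho = -rm := by linarith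
    subst hr
    have hJ1 : k * D * 1 ≤ k * D * (k + 1 - D) := mul_le_mul_of_nonneg_left (by linarith) hkD.le
    have e5 : 0 ≤ k * D * rm := mul_nonneg hkD.le h9
    rcases le_or_gt (2 * Y) D with hY2 | hY2
    · have e4 : 2 * (k * Y * Z) ≤ k * D * Z := by
        have : (k * Z) * (2 * Y) ≤ (k * Z) * D :=
          mul_le_mul_of_nonneg_left hY2 (mul_nonneg (by linarith) (by linarith))
        nlinarith
      nlinarith
    · have hN' := h.N_le' (by linarith)
      have e6 : k * D * (1 + rm) ≤ k * D * Y := mul_le_mul_of_nonneg_left h8 hkD.le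
      nlinarith

theorem h3 (h : NumHyp k D Y eps X M rho rm mm Z) (hmm : 1 ≤ mm) (hX1 : X = 1)
    (hJ : k + 1 - D ≤ mm + (1 - X) * D - Y - rho) :
    k * D * (k + 1 - D) + k * Y * D + (2 * k + 3) * (Y * Z) - (3 * k + 3) * (rm * D) ≤
      k * D * (2 * eps + 1) := by
  have h3 := h.D_ge; have h4 := h.hk; have h5 := h.hDY; have h8 := h.hY
  have h9 := h.rm_nonneg; have hZ := h.Z_le hmm; have hD := h.hD; have hX := h.hX
  have hZ1 := h.hZ1; have hZZ := h.hZ; have he := h.eps_ge_two hmm; have hN := h.N_le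
  have hDk := h.D_le
  have hkD : 0 < k * D := mul_pos (by linarith) (by linarith)
  subst hX1
  have e2 : k * D * 2 ≤ k * D * eps := mul_le_mul_of_nonneg_left he hkD.le
  have hZJ : Z ≤ eps - 2 * rho - Y - (k + 1 - D) := by linarith
  have hZJ' : k * D * Z ≤ k * D * (eps - 2 * rho - Y - (k + 1 - D)) :=
    mul_le_mul_of_nonneg_left hZJ hkD.le
  have hJ0 : 0 ≤ k * D * (k + 1 - D) := mul_nonneg hkD.le (by linarith)
  have hYD : k * Y * Z ≤ k * D * Z := by
    have : k * Y ≤ k * D := mul_le_mul_of_nonneg_left (by linarith) (by linarith)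
    exact mul_le_mul_of_nonneg_right this (by linarith)
  rcases h.cases with ⟨h1, h2, h6⟩ | ⟨h1, h2, h6⟩
  · subst h1
    have hY2 : 2 * Y ≤ D := by linarith
    have e1 : k * D * 1 ≤ k * D * rho := mul_le_mul_of_nonneg_left h2 hkD.le
    have e4 : 2 * (k * Y * Z) ≤ k * D * Z := by
      have : (k * Z) * (2 * Y) ≤ (k * Z) * D :=
        mul_le_mul_of_nonneg_left hY2 (mul_nonneg (by linarith) (by linarith))
      nlinarith
    have e5 : 2 * (Y * Z) ≤ D * k := by
      have : (2 * Y) * Z ≤ D * k := mul_le_mul hY2 (by linarith) (by linarith) (by linarith)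
      linarith
    nlinarith
  · have hr : rho = -rm := by linarith
    subst hr
    have e5 : 0 ≤ k * D * rm := mul_nonneg hkD.le h9
    rcases le_or_gt (2 * Y) D with hY2 | hY2
    · have e4 : 2 * (k * Y * Z) ≤ k * D * Z := by
        have : (k * Z) * (2 * Y) ≤ (k * Z) * D :=
          mul_le_mul_of_nonneg_left hY2 (mul_nonneg (by linarith) (by linarith))
        nlinarith
      nlinarith
    · have hN' := h.N_le' (by linarith)
      have e6 : k * D * (1 + rm) ≤ k * D * Y := mul_le_mul_of_nonneg_left h8 hkD.le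
      nlinarith

theorem mm_le (h : NumHyp k D Y eps X M rho rm mm Z) : mm ≤ k := by
  have hZZ := h.hZ; have hZ1 := h.hZ1; have hDk := h.D_le; have h5 := h.hDY; have h8 := h.hY
  have h9 := h.rm_nonneg; have h10 := h.rm_ge
  rcases h.cases with ⟨h1, h2, h6⟩ | ⟨h1, h2, h6⟩ <;> linarith

end NumHyp

end Pool.Agent.Helper7.LSr
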